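import Mathlib

set_option autoImplicit false

/-!
Gurarii spaces and monotone transfinite Schauder bases.
-/

namespace Q99.GU

/-- Gurarii spaces (of any density): Banach spaces of almost universal disposition for
finite-dimensional spaces. -/
def IsGurarii (X : Type*) [NormedAddCommGroup X] [NormedSpace ℝ X] : Prop :=
  CompleteSpace X ∧ ∀ ε : ℝ, 0 < ε → ∀ (F : Type) [NormedAddCommGroup F] [NormedSpace ℝ F]
    [FiniteDimensional ℝ F] (E : Submodule ℝ F) (e : E →ₗᵢ[ℝ] X), ∃ f : F →L[ℝ] X,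
      (∀ y, (1 + ε)⁻¹ * ‖y‖ ≤ ‖f y‖ ∧ ‖f y‖ ≤ (1 + ε) * ‖y‖) ∧
      ∀ y : E, ‖f y - e y‖ ≤ ε * ‖y‖

/-- The family `(v α)`, `α < l`, is a monotone transfinite Schauder basis of `X` with basis
projections `P β`, `β ≤ l`. -/
structure IsMonotoneTransfiniteBasis {X : Type*} [NormedAddCommGroup X] [NormedSpace ℝ X]
    (l : Ordinal.{0}) (v : Ordinal.{0} → X) (P : Ordinal.{0} → X →L[ℝ] X) : Prop where
  ne_zero : ∀ α < l, v α ≠ 0
  dense : (Submodule.span ℝ (v '' Set.Iio l)).topologicalClosure = ⊤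
  norm_le : ∀ β ≤ l, ‖P β‖ ≤ 1
  proj : ∀ β ≤ l, (P β).comp (P β) = P β
  apply_lt : ∀ β ≤ l, ∀ α < β, P β (v α) = v α
  apply_ge : ∀ β ≤ l, ∀ α < l, β ≤ α → P β (v α) = 0
  last : P l = ContinuousLinearMap.id ℝ X
  continuousOn : ∀ x, ContinuousOn (fun β => P β x) (Set.Iic l)

end Q99.GU
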