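import Mathlib

set_option autoImplicit false

/-!
Operators of extension by recursion along a well-ordered set.
-/

namespace Q99.GU

open scoped ENNReal

variable {I : Type*} [LinearOrder I] [WellFoundedLT I]

/-- Data of the recursion: the value at `γ` is `∑ β, c γ β * x β`. -/
structure Data (c : I → I →₀ ℝ) : Prop where
  lt : ∀ γ, ∀ β ∈ (c γ).support, β < γ
  le : ∀ γ, ∑ β ∈ (c γ).support, |c γ β| ≤ 1

/-- The prescribed value. -/
noncomputable def SS (c : I → I →₀ ℝ) (x : I → ℝ) (γ : I) : ℝ := ∑ β ∈ (c γ).support, c γ β * x β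

open Classical in
/-- Keep the values on `A`, extend by recursion. -/
noncomputable def T {c : I → I →₀ ℝ} (hc : Data c) (A : Set I) (y : I → ℝ) : I → ℝ :=
  (wellFounded_lt (α := I)).fix fun γ IH =>
    if γ ∈ A then y γ else ∑ β ∈ (c γ).support.attach, c γ β.1 * IH β.1 (hc.lt γ β.1 β.2)

variable {c : I → I →₀ ℝ} (hc : Data c)

lemma T_mem {A : Set I} {y : I → ℝ} {γ : I} (h : γ ∈ A) : T hc A y γ = y γ := by
  rw [T, WellFounded.fix_eq, if_pos h]

lemma T_not {A : Set I} {y : I → ℝ} {γ : I} (h : γ ∉ A) : T hc A y γ = SS c (T hc A y) γ := by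
  conv_lhs => rw [T, WellFounded.fix_eq, if_neg h]
  exact Finset.sum_attach (c γ).support fun β => c γ β * T hc A y β

include hc in
lemma SS_congr {x y : I → ℝ} {γ : I} (h : ∀ β < γ, x β = y β) : SS c x γ = SS c y γ :=
  Finset.sum_congr rfl fun β hβ => by rw [h β (hc.lt γ β hβ)]

lemma T_unique {A : Set I} {x y : I → ℝ} (h1 : ∀ γ ∈ A, x γ = y γ)
    (h2 : ∀ γ, γ ∉ A → x γ = SS c x γ) : x = T hc A y := by
  funext γ
  induction γ using (wellFounded_lt (α := I)).induction with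
  | _ γ ih =>
    by_cases h : γ ∈ A
    · rw [T_mem hc h, h1 γ h]
    · rw [T_not hc h, h2 γ h]
      exact SS_congr hc ih

lemma T_congr {A : Set I} {x y : I → ℝ} (h : ∀ γ ∈ A, x γ = y γ) : T hc A x = T hc A y :=
  T_unique hc (fun γ hγ => by rw [T_mem hc hγ, h γ hγ]) fun γ hγ => T_not hc hγ

lemma T_eq_self {A : Set I} {x : I → ℝ} (h : ∀ γ, γ ∉ A → x γ = SS c x γ) : T hc A x = x :=
  (T_unique hc (fun _ _ => rfl) h).symm

lemma SS_add (x y : I → ℝ) (γ : I) : SS c (x + y) γ = SS c x γ + SS c y γ := by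
  simp only [SS, Pi.add_apply, mul_add, Finset.sum_add_distrib]

lemma SS_smul (r : ℝ) (x : I → ℝ) (γ : I) : SS c (r • x) γ = r * SS c x γ := by
  simp only [SS, Pi.smul_apply, smul_eq_mul, Finset.mul_sum]
  exact Finset.sum_congr rfl fun β _ => by ring

lemma T_add (A : Set I) (x y : I → ℝ) : T hc A (x + y) = T hc A x + T hc A y := by
  refine (T_unique hc (fun γ hγ => ?_) fun γ hγ => ?_).symm
  · rw [Pi.add_apply, Pi.add_apply, T_mem hc hγ, T_mem hc hγ]
  · rw [Pi.add_apply, SS_add, ← T_not hc hγ, ← T_not hc hγ]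

lemma T_smul (A : Set I) (r : ℝ) (x : I → ℝ) : T hc A (r • x) = r • T hc A x := by
  refine (T_unique hc (fun γ hγ => ?_) fun γ hγ => ?_).symm
  · rw [Pi.smul_apply, Pi.smul_apply, T_mem hc hγ]
  · rw [Pi.smul_apply, SS_smul, ← T_not hc hγ, smul_eq_mul]

lemma T_bound {A : Set I} {y : I → ℝ} {M : ℝ} (hM : 0 ≤ M) (h : ∀ γ ∈ A, |y γ| ≤ M) (γ : I) :
    |T hc A y γ| ≤ M := by
  induction γ using (wellFounded_lt (α := I)).induction with
  | _ γ ih =>
    by_cases hγ : γ ∈ A
    · rw [T_mem hc hγ]; exact h γ hγ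
    · rw [T_not hc hγ, SS]
      calc |∑ β ∈ (c γ).support, c γ β * T hc A y β|
          ≤ ∑ β ∈ (c γ).support, |c γ β * T hc A y β| := Finset.abs_sum_le_sum_abs _ _
        _ ≤ ∑ β ∈ (c γ).support, |c γ β| * M := by
            refine Finset.sum_le_sum fun β hβ => ?_
            rw [abs_mul]
            exact mul_le_mul_of_nonneg_left (ih β (hc.lt γ β hβ)) (abs_nonneg _)
        _ = (∑ β ∈ (c γ).support, |c γ β|) * M := by rw [Finset.sum_mul]
        _ ≤ 1 * M := mul_le_mul_of_nonneg_right (hc.le γ) hM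
        _ = M := one_mul M

/-- The basis vectors. -/
noncomputable def ev (α : I) : I → ℝ := T hc {α} fun _ => 1

lemma ev_self (α : I) : ev hc α α = 1 := T_mem hc rfl

lemma ev_off {α γ : I} (h : γ ≠ α) : ev hc α γ = SS c (ev hc α) γ := T_not hc h

lemma ev_below {α γ : I} (h : γ < α) : ev hc α γ = 0 := by
  induction γ using (wellFounded_lt (α := I)).induction with
  | _ γ ih =>
    rw [ev_off hc h.ne, SS]
    refine Finset.sum_eq_zero fun β hβ => ?_
    rw [ih β (hc.lt γ β hβ) ((hc.lt γ β hβ).trans h), mul_zero]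

lemma ev_bound (α γ : I) : |ev hc α γ| ≤ 1 :=
  T_bound hc zero_le_one (fun _ _ => by simp) γ

/-- The coefficients of `x`. -/
noncomputable def W (c : I → I →₀ ℝ) (x : I → ℝ) (γ : I) : ℝ := x γ - SS c x γ

include hc in
lemma W_inj {x y : I → ℝ} (h : ∀ γ, W c x γ = W c y γ) : x = y := by
  funext γ
  induction γ using (wellFounded_lt (α := I)).induction with
  | _ γ ih =>
    have h1 := h γ
    rw [W, W, SS_congr hc ih] at h1
    linarith

lemma W_ev (α γ : I) : W c (ev hc α) γ = if γ = α then 1 else 0 := by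
  split_ifs with h
  · subst h
    rw [W, ev_self, SS]
    rw [Finset.sum_eq_zero, sub_zero]
    intro β hβ
    rw [ev_below hc (hc.lt γ β hβ), mul_zero]
  · rw [W, ← ev_off hc h, sub_self]

lemma W_sum {ι : Type*} (s : Finset ι) (t : ι → ℝ) (x : ι → I → ℝ) (γ : I) :
    W c (∑ i ∈ s, t i • x i) γ = ∑ i ∈ s, t i * W c (x i) γ := by
  have h : ∀ s : Finset ι, SS c (∑ i ∈ s, t i • x i) γ = ∑ i ∈ s, t i * SS c (x i) γ := by
    intro s
    classical
    induction s using Finset.induction_on with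
    | empty => simp [SS]
    | insert i s hi ih => rw [Finset.sum_insert hi, Finset.sum_insert hi, SS_add, SS_smul, ih]
  rw [W, h, Finset.sum_apply]
  simp only [Pi.smul_apply, smul_eq_mul, W, mul_sub, Finset.sum_sub_distrib]

/-- For finite `A`, `T A y` is a combination of the vectors `ev α`, `α ∈ A`. -/
lemma T_finite (A : Finset I) (y : I → ℝ) :
    T hc (A : Set I) y = ∑ α ∈ A, W c (T hc (A : Set I) y) α • ev hc α := by
  classical
  apply W_inj hc
  intro γ
  rw [W_sum]
  simp only [W_ev, mul_ite, mul_one, mul_zero, Finset.sum_ite_eq]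
  split_ifs with h
  · rfl
  · rw [W, ← T_not hc (by simpa using h), sub_self]

/-- Action of `T J` on the vectors `ev α` for a lower set `J`. -/
lemma T_ev_mem {J : Set I} {α : I} (h : α ∈ J) : T hc J (ev hc α) = ev hc α :=
  T_eq_self hc fun γ hγ => ev_off hc fun e => hγ (e ▸ h)

lemma T_zero (J : Set I) : T hc J (0 : I → ℝ) = 0 :=
  T_eq_self hc fun _ _ => by simp [SS]

lemma T_ev_not {J : Set I} (hJ : IsLowerSet J) {α : I} (h : α ∉ J) :
    T hc J (ev hc α) = 0 := by
  rw [← T_zero hc J]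
  refine T_congr hc fun γ hγ => ?_
  exact ev_below hc (lt_of_not_ge fun hle => h (hJ hle hγ))

lemma T_sub_set {A B : Set I} (hAB : A ⊆ B) (y : I → ℝ) :
    T hc B (T hc A y) = T hc A y :=
  T_eq_self hc fun _ hγ => T_not hc fun h => hγ (hAB h)

/-! ## The operators on bounded functions -/

variable (I) in
/-- Bounded functions on `I`. -/
abbrev ZZ := lp (fun _ : I => ℝ) ∞

/-- An element of `ZZ` from a bounded function. -/
def mkZ (x : I → ℝ) (M : ℝ) (h : ∀ γ, |x γ| ≤ M) : ZZ I :=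
  ⟨x, memℓp_infty ⟨M, by rintro _ ⟨γ, rfl⟩; exact h γ⟩⟩

omit [LinearOrder I] [WellFoundedLT I] in
@[simp] lemma mkZ_apply (x : I → ℝ) (M : ℝ) (h : ∀ γ, |x γ| ≤ M) (γ : I) : mkZ x M h γ = x γ := rfl

omit [LinearOrder I] [WellFoundedLT I] in
lemma norm_le_Z {x : ZZ I} {M : ℝ} (hM : 0 ≤ M) (h : ∀ γ, |x γ| ≤ M) : ‖x‖ ≤ M :=
  lp.norm_le_of_forall_le hM h

omit [LinearOrder I] [WellFoundedLT I] in
lemma le_norm_Z (x : ZZ I) (γ : I) : |x γ| ≤ ‖x‖ := lp.norm_apply_le_norm (by simp) x γ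

/-- The operator `T A` on bounded functions. -/
noncomputable def TL (A : Set I) : ZZ I →L[ℝ] ZZ I :=
  LinearMap.mkContinuous
    { toFun := fun x => mkZ (T hc A x) ‖x‖ (T_bound hc (norm_nonneg _) fun γ _ => le_norm_Z x γ)
      map_add' := fun x y => by
        apply lp.ext
        exact T_add hc A x y
      map_smul' := fun r x => by
        apply lp.ext
        exact T_smul hc A r x } 1
    (fun x => by
      rw [one_mul]
      exact norm_le_Z (norm_nonneg _) (T_bound hc (norm_nonneg _) fun γ _ => le_norm_Z x γ))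

lemma TL_apply (A : Set I) (x : ZZ I) (γ : I) : TL hc A x γ = T hc A x γ := rfl

lemma TL_norm (A : Set I) : ‖TL hc A‖ ≤ 1 := LinearMap.mkContinuous_norm_le _ zero_le_one _

lemma TL_norm_le (A : Set I) (x : ZZ I) : ‖TL hc A x‖ ≤ ‖x‖ := by
  have := (TL hc A).le_of_opNorm_le (TL_norm hc A) x
  rwa [one_mul] at this

/-- The basis vectors as elements of `ZZ I`. -/
noncomputable def evZ (α : I) : ZZ I := mkZ (ev hc α) 1 (ev_bound hc α)

lemma evZ_apply (α γ : I) : evZ hc α γ = ev hc α γ := rfl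

lemma evZ_norm (α : I) : ‖evZ hc α‖ ≤ 1 := norm_le_Z zero_le_one (ev_bound hc α)

lemma TL_evZ_mem {J : Set I} {α : I} (h : α ∈ J) : TL hc J (evZ hc α) = evZ hc α := by
  apply lp.ext
  exact T_ev_mem hc h

lemma TL_evZ_not {J : Set I} (hJ : IsLowerSet J) {α : I} (h : α ∉ J) :
    TL hc J (evZ hc α) = 0 := by
  apply lp.ext
  exact T_ev_not hc hJ h

lemma evZ_sep {α β : I} (h : α ≠ β) : 1 ≤ ‖evZ hc α - evZ hc β‖ := by
  rcases lt_or_gt_of_ne h with h | h
  · have h1 := le_norm_Z (evZ hc α - evZ hc β) α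
    rw [lp.coeFn_sub, Pi.sub_apply, evZ_apply, evZ_apply, ev_self, ev_below hc h] at h1
    simpa using h1
  · have h1 := le_norm_Z (evZ hc α - evZ hc β) β
    rw [lp.coeFn_sub, Pi.sub_apply, evZ_apply, evZ_apply, ev_self, ev_below hc h] at h1
    simpa using h1

/-- The closed span of the basis vectors. -/
noncomputable def XX : Submodule ℝ (ZZ I) :=
  (Submodule.span ℝ (Set.range (evZ hc))).topologicalClosure

lemma evZ_mem (α : I) : evZ hc α ∈ XX hc :=
  Submodule.le_topologicalClosure _ (Submodule.subset_span ⟨α, rfl⟩)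

lemma mkZ_T_mem (A : Finset I) (y : I → ℝ) (M : ℝ) (h : ∀ γ, |T hc (A : Set I) y γ| ≤ M) :
    mkZ (T hc (A : Set I) y) M h ∈ Submodule.span ℝ (Set.range (evZ hc)) := by
  have : mkZ (T hc (A : Set I) y) M h =
      ∑ α ∈ A, W c (T hc (A : Set I) y) α • evZ hc α := by
    apply lp.ext
    have h1 := T_finite hc A y
    have h2 : ((∑ α ∈ A, W c (T hc (A : Set I) y) α • evZ hc α : ZZ I) : I → ℝ) =
        ∑ α ∈ A, W c (T hc (A : Set I) y) α • ev hc α := by
      rw [lp.coeFn_sum]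
      rfl
    rw [h2, ← h1]
    rfl
  rw [this]
  exact Submodule.sum_mem _ fun α _ => Submodule.smul_mem _ _ (Submodule.subset_span ⟨α, rfl⟩)

/-- For a lower set `J`, `TL J` preserves `XX`. -/
lemma TL_mem {J : Set I} (hJ : IsLowerSet J) {x : ZZ I} (hx : x ∈ XX hc) : TL hc J x ∈ XX hc := by
  have h1 : Submodule.span ℝ (Set.range (evZ hc)) ≤
      (Submodule.span ℝ (Set.range (evZ hc))).comap (TL hc J).toLinearMap := by
    rw [Submodule.span_le]
    rintro _ ⟨α, rfl⟩
    rw [SetLike.mem_coe, Submodule.mem_comap]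
    have e : (TL hc J).toLinearMap (evZ hc α) = TL hc J (evZ hc α) := rfl
    rw [e]
    by_cases h : α ∈ J
    · rw [TL_evZ_mem hc h]
      exact Submodule.subset_span ⟨α, rfl⟩
    · rw [TL_evZ_not hc hJ h]
      exact Submodule.zero_mem _
  exact map_mem_closure (TL hc J).continuous hx fun y hy => h1 hy

/-- Elements of the span are fixed by `TL A` for all large finite `A`. -/
lemma exists_finset {x : ZZ I} (hx : x ∈ Submodule.span ℝ (Set.range (evZ hc))) :
    ∃ A : Finset I, ∀ B : Set I, (A : Set I) ⊆ B → TL hc B x = x := by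
  classical
  induction hx using Submodule.span_induction with
  | mem x hx =>
    obtain ⟨α, rfl⟩ := hx
    exact ⟨{α}, fun B hB => TL_evZ_mem hc (hB (by simp))⟩
  | zero => exact ⟨∅, fun B _ => map_zero _⟩
  | add x y _ _ hx hy =>
    obtain ⟨A, hA⟩ := hx
    obtain ⟨A', hA'⟩ := hy
    refine ⟨A ∪ A', fun B hB => ?_⟩
    rw [Finset.coe_union, Set.union_subset_iff] at hB
    rw [map_add, hA B hB.1, hA' B hB.2]
  | smul r x _ hx =>
    obtain ⟨A, hA⟩ := hx
    exact ⟨A, fun B hB => by rw [map_smul, hA B hB]⟩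

end Q99.GU
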