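import Mathlib
import Pool.Agent.Q99.GU.Op

set_option autoImplicit false

/-!
Existence of the recursion data on the first uncountable ordinal.
-/

namespace Q99.GU

open Cardinal

/-- A rational finitely supported function, as a real one. -/
noncomputable def toReal {I : Type*} (r : I →₀ ℚ) : I →₀ ℝ := 
  r.mapRange (fun q : ℚ => (q : ℝ)) (by simp)

lemma toReal_apply {I : Type*} (r : I →₀ ℚ) (i : I) : toReal r i = (r i : ℝ) := rfl

lemma toReal_support {I : Type*} (r : I →₀ ℚ) : (toReal r).support = r.support := by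
  ext i
  simp [toReal_apply]

/-- Every rational combination occurs arbitrarily late. -/
def Rich {I : Type*} [LinearOrder I] (c : I → I →₀ ℝ) : Prop :=
  ∀ r : I →₀ ℚ, ∑ β ∈ r.support, |(r β : ℝ)| ≤ 1 → ∀ δ : I, ∃ γ, δ < γ ∧ c γ = toReal r

theorem exists_data (I : Type) [LinearOrder I] [WellFoundedLT I] (hI : #I = ℵ₁)
    (hc : ∀ i : I, (Set.Iic i).Countable) : ∃ c : I → I →₀ ℝ, Data c ∧ Rich c := by
  classical
  let R := {r : I →₀ ℚ // ∑ β ∈ r.support, |(r β : ℝ)| ≤ 1}
  have hinf : Infinite I := by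
    rw [Cardinal.infinite_iff, hI]
    exact aleph0_le_aleph 1
  have hne : Nonempty I := inferInstance
  have hcard : #(R × I) ≤ #I := by
    have h1 : #R ≤ #(I →₀ ℚ) := Cardinal.mk_le_of_injective Subtype.val_injective
    have h2 : #(I →₀ ℚ) = #I := by
      rw [Cardinal.mk_finsupp_of_infinite]
      rw [max_eq_left]
      rw [Cardinal.mk_eq_aleph0 ℚ, hI]
      exact aleph0_le_aleph 1
    have h3 : #(R × I) = #R * #I := by simp
    rw [h3]
    calc #R * #I ≤ #I * #I := mul_le_mul_left (h1.trans h2.le) _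
      _ = #I := Cardinal.mul_eq_self (by rw [hI]; exact aleph0_le_aleph 1)
  have hne2 : Nonempty (R × I) := ⟨⟨⟨0, by simp⟩, hne.some⟩⟩
  obtain ⟨f⟩ : Nonempty ((R × I) ↪ I) := hcard
  let σ : I → R × I := Function.invFun f
  have hσ : Function.Surjective σ := Function.invFun_surjective f.injective
  have hsup : ∀ r : I →₀ ℚ, ∑ β ∈ (toReal r).support, |toReal r β| =
      ∑ β ∈ r.support, |(r β : ℝ)| := fun r => by rw [toReal_support]; rfl
  let c : I → I →₀ ℝ := fun γ =>
    if ∀ β ∈ (σ γ).1.1.support, β < γ then toReal (σ γ).1.1 else 0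
  refine ⟨c, ⟨fun γ β hβ => ?_, fun γ => ?_⟩, fun r hr δ => ?_⟩
  · by_cases h : ∀ β ∈ (σ γ).1.1.support, β < γ
    · simp only [c, if_pos h, toReal_support] at hβ
      exact h β hβ
    · simp only [c, if_neg h] at hβ
      simp at hβ
  · by_cases h : ∀ β ∈ (σ γ).1.1.support, β < γ
    · simp only [c, if_pos h]
      rw [hsup]
      exact (σ γ).1.2
    · simp only [c, if_neg h]
      simp
  · obtain ⟨δ', hδ'⟩ := (insert δ r.support).exists_le
    have h1 : ∃ γ, δ' < γ ∧ (σ γ).1 = ⟨r, hr⟩ := by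
      by_contra hcon
      push Not at hcon
      have h2 : (Set.univ : Set I) ⊆ (fun γ => (σ γ).2) '' Set.Iic δ' := by
        intro i _
        obtain ⟨γ, hγ⟩ := hσ (⟨r, hr⟩, i)
        refine ⟨γ, ?_, by simp only [hγ]⟩
        by_contra hlt
        exact hcon γ (not_le.1 hlt) (by rw [hγ])
      have h3 : (Set.univ : Set I).Countable := ((hc δ').image _).mono h2
      have h4 : #I ≤ ℵ₀ := by
        rw [← Cardinal.mk_univ]
        exact h3.le_aleph0
      rw [hI] at h4
      exact absurd h4 (not_le.2 Cardinal.aleph0_lt_aleph_one)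
    obtain ⟨γ, hγ1, hγ2⟩ := h1
    refine ⟨γ, (hδ' δ (Finset.mem_insert_self _ _)).trans_lt hγ1, ?_⟩
    have h5 : ∀ β ∈ (σ γ).1.1.support, β < γ := by
      rw [hγ2]
      intro β hβ
      exact (hδ' β (Finset.mem_insert_of_mem hβ)).trans_lt hγ1
    simp only [c, if_pos h5]
    rw [hγ2]

/-- Given finitely many prescribed combinations, they occur in increasing order above `δ`. -/
lemma Rich.seq {I : Type*} [LinearOrder I] {c : I → I →₀ ℝ} (h : Rich c) (r : ℕ → I →₀ ℚ)
    (hr : ∀ n, ∑ β ∈ (r n).support, |(r n β : ℝ)| ≤ 1) (δ : I) :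
    ∃ γ : ℕ → I, StrictMono γ ∧ (∀ n, δ < γ n) ∧ ∀ n, c (γ n) = toReal (r n) := by
  choose g hg1 hg2 using fun n => h (r n) (hr n)
  let γ : ℕ → I := fun n => Nat.rec (g 0 δ) (fun n x => g (n + 1) x) n
  have hγ : ∀ n, γ (n + 1) = g (n + 1) (γ n) := fun n => rfl
  have hm : StrictMono γ := strictMono_nat_of_lt_succ fun n => by
    rw [hγ]; exact hg1 (n + 1) (γ n)
  refine ⟨γ, hm, fun n => (hg1 0 δ).trans_le (hm.monotone (Nat.zero_le n)), fun n => ?_⟩
  cases n with
  | zero => exact hg2 0 δ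
  | succ n => rw [hγ]; exact hg2 (n + 1) (γ n)

end Q99.GU
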