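import Mathlib
import Pool.Agent.Q99.GU.Op
import Pool.Agent.Q99.GU.Seq
import Pool.Agent.Q99.GU.Defs

set_option autoImplicit false
set_option synthInstance.maxHeartbeats 400000

/-!
The monotone transfinite basis and the density of `XX`.
-/

namespace Q99.GU

open Cardinal Filter Topology

variable {l : Ordinal.{0}} {c : l.ToType → l.ToType →₀ ℝ} (hc : Data c)

/-- The ordinal of an index. -/
noncomputable def od (i : l.ToType) : Ordinal.{0} := ((Ordinal.ToType.mk.symm i : Set.Iio l) : Ordinal.{0})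

lemma od_lt (i : l.ToType) : od i < l := (Ordinal.ToType.mk.symm i : Set.Iio l).2

lemma od_mono {i j : l.ToType} (h : i ≤ j) : od i ≤ od j := by
  have : (Ordinal.ToType.mk.symm i : Set.Iio l) ≤ Ordinal.ToType.mk.symm j :=
    (OrderIso.le_iff_le _).2 h
  exact this

lemma od_mk (α : Ordinal.{0}) (h : α < l) : od (Ordinal.ToType.mk ⟨α, h⟩ : l.ToType) = α := by
  rw [od, OrderIso.symm_apply_apply]

/-- The initial segments. -/
def JJ (β : Ordinal.{0}) : Set l.ToType := {i | od i < β}

lemma JJ_lower (β : Ordinal.{0}) : IsLowerSet (JJ (l := l) β) := fun _ _ hij hi =>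
  (od_mono hij).trans_lt hi

/-- The basis vectors in `XX`. -/
noncomputable def vI (i : l.ToType) : XX hc := ⟨evZ hc i, evZ_mem hc i⟩

open Classical in
/-- The basis vectors, indexed by ordinals. -/
noncomputable def vO (α : Ordinal.{0}) : XX hc :=
  if h : α < l then vI hc (Ordinal.ToType.mk ⟨α, h⟩) else 0

lemma vO_eq (α : Ordinal.{0}) (h : α < l) : vO hc α = vI hc (Ordinal.ToType.mk ⟨α, h⟩) := dif_pos h

lemma vO_image : vO hc '' Set.Iio l = Set.range (vI hc) := by
  ext x
  constructor
  · rintro ⟨α, hα, rfl⟩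
    exact ⟨_, (vO_eq hc α hα).symm⟩
  · rintro ⟨i, rfl⟩
    refine ⟨od i, od_lt i, ?_⟩
    rw [vO_eq hc _ (od_lt i)]
    congr 1
    have : (⟨od i, od_lt i⟩ : Set.Iio l) = Ordinal.ToType.mk.symm i := rfl
    rw [this, OrderIso.apply_symm_apply]

/-- The basis projections. -/
noncomputable def PP (β : Ordinal.{0}) : XX hc →L[ℝ] XX hc :=
  ((TL hc (JJ β)).comp (XX hc).subtypeL).codRestrict (XX hc)
    (fun x => TL_mem hc (JJ_lower β) x.2)

lemma PP_coe (β : Ordinal.{0}) (x : XX hc) : (PP hc β x : ZZ l.ToType) = TL hc (JJ β) x := rfl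

lemma span_dense : (Submodule.span ℝ (Set.range (vI hc))).topologicalClosure = ⊤ := by
  rw [eq_top_iff]
  rintro x -
  change x ∈ closure ((Submodule.span ℝ (Set.range (vI hc)) : Submodule ℝ (XX hc)) : Set (XX hc))
  rw [closure_subtype]
  have h1 : ((↑) '' ((Submodule.span ℝ (Set.range (vI hc)) : Submodule ℝ (XX hc)) :
      Set (XX hc)) : Set (ZZ l.ToType)) = (Submodule.span ℝ (Set.range (evZ hc)) : Set _) := by
    have h2 := Submodule.map_span (XX hc).subtype (Set.range (vI hc))
    have h3 : (XX hc).subtype '' Set.range (vI hc) = Set.range (evZ hc) := by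
      rw [← Set.range_comp]; rfl
    rw [h3] at h2
    rw [← h2]
    rfl
  rw [h1]
  exact x.2

lemma exists_near (x : XX hc) {ε : ℝ} (hε : 0 < ε) :
    ∃ y ∈ Submodule.span ℝ (Set.range (vI hc)), ‖x - y‖ < ε := by
  have h : x ∈ closure ((Submodule.span ℝ (Set.range (vI hc)) : Submodule ℝ (XX hc)) :
      Set (XX hc)) := by
    have := span_dense hc
    rw [eq_top_iff] at this
    exact this Submodule.mem_top
  obtain ⟨y, hy, hd⟩ := Metric.mem_closure_iff.1 h ε hε
  exact ⟨y, hy, by rwa [dist_eq_norm] at hd⟩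

lemma PP_vI_mem {β : Ordinal.{0}} {i : l.ToType} (h : od i < β) : PP hc β (vI hc i) = vI hc i :=
  Subtype.ext (TL_evZ_mem hc h)

lemma PP_vI_not {β : Ordinal.{0}} {i : l.ToType} (h : β ≤ od i) : PP hc β (vI hc i) = 0 :=
  Subtype.ext (TL_evZ_not hc (JJ_lower β) (not_lt.2 h))

lemma PP_norm (β : Ordinal.{0}) : ‖PP hc β‖ ≤ 1 :=
  ContinuousLinearMap.opNorm_le_bound _ zero_le_one fun x => by
    rw [one_mul]
    exact TL_norm_le hc (JJ β) (x : ZZ l.ToType)

lemma PP_norm_le (β : Ordinal.{0}) (x : XX hc) : ‖PP hc β x‖ ≤ ‖x‖ :=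
  TL_norm_le hc (JJ β) (x : ZZ l.ToType)

/-- On the span the projections are locally constant. -/
lemma locally_const {y : XX hc} (hy : y ∈ Submodule.span ℝ (Set.range (vI hc)))
    (β₀ : Ordinal.{0}) : ∀ᶠ β in 𝓝 β₀, PP hc β y = PP hc β₀ y := by
  induction hy using Submodule.span_induction with
  | mem x hx =>
    obtain ⟨i, rfl⟩ := hx
    rcases lt_or_ge (od i) β₀ with h | h
    · filter_upwards [lt_mem_nhds h] with β hβ
      rw [PP_vI_mem hc hβ, PP_vI_mem hc h]
    · filter_upwards [Iio_mem_nhds (Order.lt_succ β₀)] with β hβ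
      rw [PP_vI_not hc ((Order.lt_succ_iff.1 hβ).trans h), PP_vI_not hc h]
  | zero => exact Eventually.of_forall fun β => by rw [map_zero, map_zero]
  | add x y _ _ hx hy =>
    filter_upwards [hx, hy] with β h1 h2
    rw [map_add, map_add, h1, h2]
  | smul r x _ hx =>
    filter_upwards [hx] with β h1
    rw [map_smul, map_smul, h1]

lemma PP_continuous (x : XX hc) : Continuous fun β => PP hc β x := by
  rw [continuous_iff_continuousAt]
  intro β₀
  rw [ContinuousAt, Metric.tendsto_nhds]
  intro ε hε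
  obtain ⟨y, hy, hxy⟩ := exists_near hc x (ε := ε / 3) (by positivity)
  filter_upwards [locally_const hc hy β₀] with β hβ
  rw [dist_eq_norm]
  have e : PP hc β x - PP hc β₀ x = PP hc β (x - y) - PP hc β₀ (x - y) := by
    rw [map_sub, map_sub, hβ]; abel
  rw [e]
  have h1 := PP_norm_le hc β (x - y)
  have h2 := PP_norm_le hc β₀ (x - y)
  have h3 := norm_sub_le (PP hc β (x - y)) (PP hc β₀ (x - y))
  linarith

theorem isBasis : IsMonotoneTransfiniteBasis l (vO hc) (PP hc) where
  ne_zero α hα h := by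
    rw [vO_eq hc α hα] at h
    have h1 : evZ hc (Ordinal.ToType.mk ⟨α, hα⟩) = 0 := congrArg Subtype.val h
    have h2 := ev_self hc (Ordinal.ToType.mk ⟨α, hα⟩)
    rw [← evZ_apply, h1] at h2
    simp at h2
  dense := by rw [vO_image]; exact span_dense hc
  norm_le β _ := PP_norm hc β
  proj β _ := by
    ext x
    have := T_sub_set hc (subset_refl (JJ β)) ((x : ZZ l.ToType) : l.ToType → ℝ)
    exact congrFun this _
  apply_lt β hβ α hα := by
    rw [vO_eq hc α (hα.trans_le hβ)]
    exact PP_vI_mem hc (by rwa [od_mk])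
  apply_ge β _ α hα hβα := by
    rw [vO_eq hc α hα]
    exact PP_vI_not hc (by rwa [od_mk])
  last := by
    ext x
    have : T hc (JJ l) ((x : ZZ l.ToType) : l.ToType → ℝ) = x :=
      T_eq_self hc fun γ hγ => absurd (od_lt γ) hγ
    exact congrFun this _
  continuousOn x := (PP_continuous hc x).continuousOn

/-- The density is `ℵ₁`. -/
theorem isLeast_density (hl : #l.ToType = ℵ₁) :
    IsLeast {κ : Cardinal | ∃ s : Set (XX hc), Dense s ∧ #s = κ} ℵ₁ := by
  classical
  have hlow : ∀ s : Set (XX hc), Dense s → ℵ₁ ≤ #s := by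
    intro s hs
    have h1 : ∀ i : l.ToType, ∃ y ∈ s, dist (vI hc i) y < 1 / 2 := fun i =>
      Metric.dense_iff.1 hs (vI hc i) (1 / 2) (by norm_num) |>.imp fun y hy => by
        refine ⟨hy.2, ?_⟩
        have := hy.1
        rwa [Metric.mem_ball, dist_comm] at this
    choose g hg1 hg2 using h1
    rw [← hl]
    refine Cardinal.mk_le_of_injective (f := fun i => (⟨g i, hg1 i⟩ : s)) fun i j hij => ?_
    by_contra hne
    have h2 : g i = g j := congrArg Subtype.val hij
    have h3 : dist (vI hc i) (vI hc j) < 1 := by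
      calc dist (vI hc i) (vI hc j) ≤ dist (vI hc i) (g i) + dist (g i) (vI hc j) :=
            dist_triangle _ _ _
        _ < 1 / 2 + 1 / 2 := by
            refine add_lt_add (hg2 i) ?_
            rw [h2, dist_comm]
            exact hg2 j
        _ = 1 := by norm_num
    have h4 := evZ_sep hc hne
    rw [dist_eq_norm] at h3
    exact absurd h3 (not_lt.2 h4)
  have hinf : Infinite l.ToType := by
    rw [Cardinal.infinite_iff, hl]
    exact aleph0_le_aleph 1
  let Φ : (l.ToType →₀ ℚ) → XX hc := fun r => r.sum fun i q => (q : ℝ) • vI hc i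
  have hdense : Dense (Set.range Φ) := by
    rw [Metric.dense_iff]
    intro x ε hε
    obtain ⟨y, hy, hxy⟩ := exists_near hc x (ε := ε / 2) (by positivity)
    rw [Finsupp.mem_span_range_iff_exists_finsupp] at hy
    obtain ⟨t, rfl⟩ := hy
    set n : ℝ := (t.support.card : ℝ) + 1 with hn
    have hn0 : 0 < n := by positivity
    have hq : ∀ i, ∃ q : ℚ, |t i - q| < ε / 2 / n := fun i => by
      obtain ⟨q, hq1, hq2⟩ := exists_rat_btwn (show t i - ε / 2 / n < t i by
        have : 0 < ε / 2 / n := by positivity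
        linarith)
      have : 0 < ε / 2 / n := by positivity
      exact ⟨q, by rw [abs_lt]; constructor <;> linarith⟩
    choose q hq using hq
    let r : l.ToType →₀ ℚ := Finsupp.onFinset t.support (fun i => if i ∈ t.support then q i else 0)
      (fun i hi => by by_contra hcon; exact hi (if_neg hcon))
    have hr : ∀ i ∈ t.support, r i = q i := fun i hi => by
      simp only [r, Finsupp.onFinset_apply, if_pos hi]
    have hΦ : Φ r = ∑ i ∈ t.support, (r i : ℝ) • vI hc i := by
      simp only [Φ, Finsupp.sum]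
      refine Finset.sum_subset Finsupp.support_onFinset_subset fun i _ hi => ?_
      rw [Finsupp.notMem_support_iff.1 hi]; simp
    refine ⟨Φ r, ?_, ⟨r, rfl⟩⟩
    rw [Metric.mem_ball, dist_comm, dist_eq_norm]
    have h1 : ‖(t.sum fun i a => a • vI hc i) - Φ r‖ ≤ ε / 2 := by
      rw [hΦ, Finsupp.sum, ← Finset.sum_sub_distrib]
      calc ‖∑ i ∈ t.support, (t i • vI hc i - (r i : ℝ) • vI hc i)‖
          ≤ ∑ i ∈ t.support, ‖t i • vI hc i - (r i : ℝ) • vI hc i‖ := norm_sum_le _ _
        _ ≤ ∑ i ∈ t.support, ε / 2 / n := by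
            refine Finset.sum_le_sum fun i hi => ?_
            rw [← sub_smul, norm_smul, hr i hi]
            have h2 : ‖vI hc i‖ ≤ 1 := evZ_norm hc i
            calc ‖t i - (q i : ℝ)‖ * ‖vI hc i‖ ≤ ε / 2 / n * 1 :=
                  mul_le_mul (hq i).le h2 (norm_nonneg _) (by positivity)
              _ = ε / 2 / n := mul_one _
        _ = t.support.card * (ε / 2 / n) := by rw [Finset.sum_const, nsmul_eq_mul]
        _ ≤ n * (ε / 2 / n) := mul_le_mul_of_nonneg_right (by rw [hn]; linarith) (by positivity)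
        _ = ε / 2 := by field_simp
    have h2 : x - Φ r = (x - t.sum fun i a => a • vI hc i) +
        ((t.sum fun i a => a • vI hc i) - Φ r) := by abel
    rw [h2]
    exact (norm_add_le _ _).trans_lt (by linarith)
  refine ⟨⟨Set.range Φ, hdense, le_antisymm ?_ (hlow _ hdense)⟩, ?_⟩
  · calc #(Set.range Φ) ≤ #(l.ToType →₀ ℚ) := Cardinal.mk_range_le
      _ = ℵ₁ := by
        rw [Cardinal.mk_finsupp_of_infinite, max_eq_left, hl]
        rw [Cardinal.mk_eq_aleph0 ℚ, hl]
        exact aleph0_le_aleph 1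
  · rintro κ ⟨s, hs, rfl⟩
    exact hlow s hs

end Q99.GU
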