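import Mathlib
import Pool.Agent.Q99.GU.Op
import Pool.Agent.Q99.GU.Seq
import Pool.Agent.Q99.GU.Defs

set_option autoImplicit false

/-!
The space `XX` is a Gurarii space.
-/

namespace Q99.GU

/-- Functionals on a space with a finite norming family of functionals. -/
lemma rep {E : Type*} [NormedAddCommGroup E] [NormedSpace ℝ E] {ι : Type*} [Fintype ι]
    (u : ι → (E →L[ℝ] ℝ)) (θ : ℝ) (hθ : 0 < θ) (h : ∀ y, θ * ‖y‖ ≤ ‖fun i => u i y‖)
    (g : E →L[ℝ] ℝ) (hg : ‖g‖ ≤ 1) :
    ∃ a : ι → ℝ, ∑ i, |a i| ≤ 1 / θ ∧ ∀ y, g y = ∑ i, a i * u i y := by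
  classical
  let Φ : E →ₗ[ℝ] (ι → ℝ) := LinearMap.pi fun i => (u i).toLinearMap
  have hΦ : ∀ y, Φ y = fun i => u i y := fun y => rfl
  have hinj : Function.Injective Φ := by
    rw [← LinearMap.ker_eq_bot, LinearMap.ker_eq_bot']
    intro y hy
    have h1 := h y
    rw [← hΦ, hy, norm_zero] at h1
    have h2 : ‖y‖ ≤ 0 := by
      by_contra hcon
      push Not at hcon
      have := mul_pos hθ hcon
      linarith
    exact norm_le_zero_iff.1 h2
  let e := LinearEquiv.ofInjective Φ hinj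
  have he : ∀ v : LinearMap.range Φ, Φ (e.symm v) = v := fun v => by
    have := e.apply_symm_apply v
    exact congrArg Subtype.val this
  let f : LinearMap.range Φ →L[ℝ] ℝ := (g.toLinearMap ∘ₗ e.symm.toLinearMap).mkContinuous (1 / θ)
    (fun v => by
      have h1 : ‖g (e.symm v)‖ ≤ 1 * ‖e.symm v‖ := g.le_of_opNorm_le hg _
      have h2 := h (e.symm v)
      rw [← hΦ, he] at h2
      have h3 : ‖e.symm v‖ ≤ 1 / θ * ‖(v : ι → ℝ)‖ := by
        rw [one_div, inv_mul_eq_div, le_div_iff₀ hθ, mul_comm]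
        exact h2
      calc ‖(g.toLinearMap ∘ₗ e.symm.toLinearMap) v‖ = ‖g (e.symm v)‖ := rfl
        _ ≤ 1 * ‖e.symm v‖ := h1
        _ ≤ 1 / θ * ‖v‖ := by rw [one_mul]; exact h3)
  obtain ⟨φ, hφ1, hφ2⟩ := exists_extension_norm_eq (LinearMap.range Φ) f
  have hφn : ‖φ‖ ≤ 1 / θ := by
    rw [hφ2]
    exact LinearMap.mkContinuous_norm_le _ (by positivity) _
  have hsum : ∀ v : ι → ℝ, φ v = ∑ i, v i * φ (Pi.single i 1) := by
    intro v
    have := LinearMap.pi_apply_eq_sum_univ φ.toLinearMap v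
    have h2 : ∀ i : ι, (fun j => if i = j then (1 : ℝ) else 0) = Pi.single i 1 := fun i => by
      funext j
      by_cases hij : i = j
      · subst hij; simp
      · rw [if_neg hij, Pi.single_eq_of_ne (Ne.symm hij)]
    simp only [h2, smul_eq_mul] at this
    exact this
  refine ⟨fun i => φ (Pi.single i 1), ?_, fun y => ?_⟩
  · let s : ι → ℝ := fun i => SignType.sign (φ (Pi.single i 1))
    have h1 : φ s = ∑ i, |φ (Pi.single i 1)| := by
      rw [hsum]
      exact Finset.sum_congr rfl fun i _ => by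
        simp only [s]
        exact sign_mul_self _
    rw [← h1]
    have h2 : ‖s‖ ≤ 1 := by
      rw [pi_norm_le_iff_of_nonneg zero_le_one]
      intro i
      simp only [s]
      rcases lt_trichotomy (φ (Pi.single i 1)) 0 with h | h | h
      · rw [sign_neg h]; simp
      · rw [h]; simp
      · rw [sign_pos h]; simp
    calc φ s ≤ ‖φ s‖ := Real.le_norm_self _
      _ ≤ ‖φ‖ * ‖s‖ := φ.le_opNorm s
      _ ≤ 1 / θ * 1 := mul_le_mul hφn h2 (norm_nonneg _) (by positivity)
      _ = 1 / θ := mul_one _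
  · have h1 : g y = φ (Φ y) := by
      have h2 := hφ1 ⟨Φ y, LinearMap.mem_range_self Φ y⟩
      have h3 : f ⟨Φ y, LinearMap.mem_range_self Φ y⟩ = g y := by
        have : e.symm ⟨Φ y, LinearMap.mem_range_self Φ y⟩ = y := by
          rw [LinearEquiv.symm_apply_eq]; rfl
        change g (e.symm ⟨Φ y, LinearMap.mem_range_self Φ y⟩) = g y
        rw [this]
      rw [← h3, ← h2]
    rw [h1, hsum]
    exact Finset.sum_congr rfl fun i _ => by rw [hΦ]; ring

/-- Rational approximation. -/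
lemma rat_approx {I : Type*} (A : Finset I) (a : A → ℝ) (η : ℝ) (hη : 0 < η) (hη2 : η ≤ 1 / 2)
    (ha : ∑ i, |a i| ≤ 1 / (1 - η)) : ∃ r : I →₀ ℚ, r.support ⊆ A ∧
      ∑ β ∈ r.support, |(r β : ℝ)| ≤ 1 ∧ ∑ i : A, |a i - (r i : ℝ)| ≤ 4 * η := by
  classical
  set s : ℝ := (1 - η) ^ 2 with hs
  have hθ : 0 < 1 - η := by linarith
  set n : ℝ := (Fintype.card A : ℝ) + 1 with hn
  have hn0 : 0 < n := by positivity
  have hq : ∀ i : A, ∃ q : ℚ, |s * a i - q| < η / n := fun i => by
    obtain ⟨q, hq1, hq2⟩ := exists_rat_btwn (show s * a i - η / n < s * a i by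
      have := div_pos hη hn0; linarith)
    exact ⟨q, by rw [abs_lt]; constructor <;> linarith [div_pos hη hn0]⟩
  choose q hq using hq
  let r : I →₀ ℚ := Finsupp.onFinset A (fun i => if h : i ∈ A then q ⟨i, h⟩ else 0) (fun i hi => by
    by_contra hcon
    exact hi (dif_neg hcon))
  have hr : ∀ i : A, r i = q i := fun i => by
    simp only [r, Finsupp.onFinset_apply]
    rw [dif_pos i.2]
  have hsupp : r.support ⊆ A := Finsupp.support_onFinset_subset
  have hsumA : ∀ F : I → ℝ, (∀ i ∉ r.support, F i = 0) → ∑ β ∈ r.support, F β = ∑ i : A, F i := by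
    intro F hF
    rw [Finset.sum_coe_sort A F]
    exact Finset.sum_subset hsupp fun i _ hi => hF i hi
  have hsmall : ∑ i : A, |s * a i - (q i : ℝ)| ≤ η := by
    calc ∑ i : A, |s * a i - (q i : ℝ)| ≤ ∑ i : A, η / n := Finset.sum_le_sum fun i _ => (hq i).le
      _ = Fintype.card A * (η / n) := by rw [Finset.sum_const, nsmul_eq_mul]; rfl
      _ ≤ n * (η / n) := mul_le_mul_of_nonneg_right (by rw [hn]; linarith) (by positivity)
      _ = η := by field_simp
  have hs0 : 0 ≤ s := by positivity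
  have hsa : s * ∑ i, |a i| ≤ 1 - η := by
    calc s * ∑ i, |a i| ≤ s * (1 / (1 - η)) := mul_le_mul_of_nonneg_left ha hs0
      _ = 1 - η := by rw [hs]; field_simp
  refine ⟨r, hsupp, ?_, ?_⟩
  · rw [hsumA (fun β => |(r β : ℝ)|) (fun i hi => by
      rw [Finsupp.notMem_support_iff.1 hi]; simp)]
    calc ∑ i : A, |(r i : ℝ)| ≤ ∑ i : A, (|s * a i - (q i : ℝ)| + s * |a i|) := by
          refine Finset.sum_le_sum fun i _ => ?_
          rw [hr]
          have h1 : |s * a i| = s * |a i| := by rw [abs_mul, abs_of_nonneg hs0]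
          rw [← h1]
          calc |(q i : ℝ)| = |s * a i - (s * a i - q i)| := by congr 1; ring
            _ ≤ |s * a i| + |s * a i - q i| := abs_sub _ _
            _ = _ := add_comm _ _
      _ = ∑ i : A, |s * a i - (q i : ℝ)| + s * ∑ i, |a i| := by
          rw [Finset.sum_add_distrib, Finset.mul_sum]
      _ ≤ η + (1 - η) := add_le_add hsmall hsa
      _ = 1 := by ring
  · calc ∑ i : A, |a i - (r i : ℝ)| ≤ ∑ i : A, (|s * a i - (q i : ℝ)| + (1 - s) * |a i|) := by
          refine Finset.sum_le_sum fun i _ => ?_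
          rw [hr]
          have hs1 : s ≤ 1 := by rw [hs]; nlinarith
          have h1 : |(1 - s) * a i| = (1 - s) * |a i| := by
            rw [abs_mul, abs_of_nonneg (by linarith)]
          rw [← h1]
          calc |a i - (q i : ℝ)| = |(s * a i - q i) + (1 - s) * a i| := by congr 1; ring
            _ ≤ _ := abs_add_le _ _
      _ = ∑ i : A, |s * a i - (q i : ℝ)| + (1 - s) * ∑ i, |a i| := by
          rw [Finset.sum_add_distrib, Finset.mul_sum]
      _ ≤ η + (1 - s) * (1 / (1 - η)) := by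
          have hs1 : s ≤ 1 := by rw [hs]; nlinarith
          exact add_le_add hsmall (mul_le_mul_of_nonneg_left ha (by linarith))
      _ ≤ 4 * η := by
          have : (1 - s) * (1 / (1 - η)) ≤ 3 * η := by
            rw [mul_one_div, div_le_iff₀ hθ, hs]
            nlinarith
          linarith

/-- A finite almost norming family. -/
lemma exists_net (F : Type*) [NormedAddCommGroup F] [NormedSpace ℝ F] [FiniteDimensional ℝ F]
    (η : ℝ) (hη : 0 < η) : ∃ (t : Finset F) (g : F → (F →L[ℝ] ℝ)), (∀ z, ‖g z‖ ≤ 1) ∧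
      ∀ y : F, y ≠ 0 → ∃ z ∈ t, (1 - 2 * η) * ‖y‖ ≤ |g z y| := by
  have : ProperSpace F := FiniteDimensional.proper_real F
  obtain ⟨t, hts, htf, htc⟩ := (isCompact_sphere (0 : F) 1).finite_cover_balls hη
  choose g hg1 hg2 using fun z : F => exists_dual_vector'' ℝ z
  refine ⟨htf.toFinset, g, hg1, fun y hy => ?_⟩
  have hy0 : 0 < ‖y‖ := norm_pos_iff.2 hy
  have h1 : ‖y‖⁻¹ • y ∈ Metric.sphere (0 : F) 1 := by
    rw [mem_sphere_zero_iff_norm, norm_smul, norm_inv, norm_norm, inv_mul_cancel₀ hy0.ne']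
  obtain ⟨z, hz, hzy⟩ := Set.mem_iUnion₂.1 (htc h1)
  refine ⟨z, by simpa using hz, ?_⟩
  have hz1 : ‖z‖ = 1 := by simpa using hts hz
  rw [Metric.mem_ball, dist_eq_norm] at hzy
  have h2 : g z (‖y‖⁻¹ • y) = g z z + g z (‖y‖⁻¹ • y - z) := by rw [map_sub]; ring
  have h3 : |g z (‖y‖⁻¹ • y - z)| ≤ η := by
    calc |g z (‖y‖⁻¹ • y - z)| ≤ 1 * ‖‖y‖⁻¹ • y - z‖ := (g z).le_of_opNorm_le (hg1 z) _
      _ ≤ η := by rw [one_mul]; exact hzy.le
  have h4 : g z z = 1 := by
    have := hg2 z
    simpa [hz1] using this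
  have h5 : 1 - 2 * η ≤ g z (‖y‖⁻¹ • y) := by
    rw [h2, h4]
    have := abs_le.1 h3
    linarith
  have h6 : g z (‖y‖⁻¹ • y) = ‖y‖⁻¹ * g z y := by rw [map_smul, smul_eq_mul]
  rw [h6] at h5
  have h7 := mul_le_mul_of_nonneg_right h5 hy0.le
  have h8 : ‖y‖⁻¹ * g z y * ‖y‖ = g z y := by field_simp
  rw [h8] at h7
  exact h7.trans (le_abs_self _)

section

variable {I : Type*} [LinearOrder I] [WellFoundedLT I] {c : I → I →₀ ℝ} (hc : Data c)

/-- Evaluation on `ZZ I`. -/
noncomputable def evalZ (α : I) : ZZ I →L[ℝ] ℝ :=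
  LinearMap.mkContinuous
    { toFun := fun x => x α
      map_add' := fun x y => by simp
      map_smul' := fun r x => by simp } 1
    (fun x => by rw [one_mul]; exact le_norm_Z x α)

omit [LinearOrder I] [WellFoundedLT I] in
@[simp] lemma evalZ_apply (α : I) (x : ZZ I) : evalZ α x = x α := rfl

/-- Approximation of a finite-dimensional piece of `XX`. -/
lemma approx {E : Type*} [NormedAddCommGroup E] [NormedSpace ℝ E] [FiniteDimensional ℝ E]
    (v : E →L[ℝ] ZZ I) (hv : ∀ y, v y ∈ XX hc) (η : ℝ) (hη : 0 < η) :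
    ∃ A : Finset I, ∀ y, ‖TL hc (A : Set I) (v y) - v y‖ ≤ η * ‖y‖ := by
  classical
  let b := Module.finBasis ℝ E
  let cf : Fin (Module.finrank ℝ E) → (E →L[ℝ] ℝ) := fun i =>
    LinearMap.toContinuousLinearMap (b.coord i)
  set K : ℝ := ∑ i, ‖cf i‖ with hK
  have hK0 : 0 ≤ K := Finset.sum_nonneg fun i _ => norm_nonneg _
  set η' := η / (2 * (K + 1)) with hη'
  have hη'0 : 0 < η' := by positivity
  have h1 : ∀ i, ∃ A : Finset I, ∀ B : Set I, (A : Set I) ⊆ B →
      ‖TL hc B (v (b i)) - v (b i)‖ ≤ 2 * η' := by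
    intro i
    obtain ⟨z, hz, hd⟩ := Metric.mem_closure_iff.1 (hv (b i)) η' hη'0
    obtain ⟨A, hA⟩ := exists_finset hc hz
    refine ⟨A, fun B hB => ?_⟩
    have e : TL hc B (v (b i)) - v (b i) = TL hc B (v (b i) - z) - (v (b i) - z) := by
      rw [map_sub, hA B hB]; abel
    rw [e]
    refine (norm_sub_le _ _).trans ?_
    have h2 := TL_norm_le hc B (v (b i) - z)
    rw [dist_eq_norm] at hd
    linarith
  choose A hA using h1
  refine ⟨Finset.univ.biUnion A, fun y => ?_⟩
  have hy : y = ∑ i, cf i y • b i := by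
    conv_lhs => rw [← b.sum_repr y]
    rfl
  set B : Set I := ((Finset.univ.biUnion A : Finset I) : Set I) with hB
  have h2 : TL hc B (v y) - v y = ∑ i, cf i y • (TL hc B (v (b i)) - v (b i)) := by
    conv_lhs => rw [hy]
    simp only [map_sum, map_smul, smul_sub, Finset.sum_sub_distrib]
  rw [h2]
  calc ‖∑ i, cf i y • (TL hc B (v (b i)) - v (b i))‖
      ≤ ∑ i, ‖cf i y • (TL hc B (v (b i)) - v (b i))‖ := norm_sum_le _ _
    _ ≤ ∑ i, ‖cf i‖ * ‖y‖ * (2 * η') := by
        refine Finset.sum_le_sum fun i _ => ?_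
        rw [norm_smul]
        refine mul_le_mul ((cf i).le_opNorm y) (hA i B ?_) (norm_nonneg _) (by positivity)
        rw [hB]
        exact_mod_cast Finset.subset_biUnion_of_mem A (Finset.mem_univ i)
    _ = K * (2 * η') * ‖y‖ := by rw [hK, Finset.sum_mul, Finset.sum_mul]; congr 1; funext i; ring
    _ ≤ η * ‖y‖ := by
        refine mul_le_mul_of_nonneg_right ?_ (norm_nonneg _)
        rw [hη', show K * (2 * (η / (2 * (K + 1)))) = η * (K / (K + 1)) by field_simp]
        have : K / (K + 1) ≤ 1 := by rw [div_le_one (by positivity)]; linarith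
        nlinarith

/-- The map into `XX` with prescribed coordinates on a finite set. -/
noncomputable def GG {F : Type*} [NormedAddCommGroup F] [NormedSpace ℝ F] (B : Finset I)
    (k : I → (F →L[ℝ] ℝ)) (hk : ∀ γ, ‖k γ‖ ≤ 1) : F →L[ℝ] ZZ I :=
  LinearMap.mkContinuous
    { toFun := fun y => mkZ (T hc (B : Set I) fun γ => k γ y) ‖y‖ (T_bound hc (norm_nonneg _)
        fun γ _ => by
          have := (k γ).le_of_opNorm_le (hk γ) y
          rwa [one_mul] at this)
      map_add' := fun x y => by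
        apply lp.ext
        have := T_add hc (B : Set I) (fun γ => k γ x) (fun γ => k γ y)
        have e : ((fun γ => k γ x) + fun γ => k γ y) = fun γ => k γ (x + y) := by
          funext γ; simp
        rw [e] at this
        exact this
      map_smul' := fun r x => by
        apply lp.ext
        have := T_smul hc (B : Set I) r (fun γ => k γ x)
        have e : (r • fun γ => k γ x) = fun γ => k γ (r • x) := by
          funext γ; simp
        rw [e] at this
        exact this } 1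
    (fun y => by
      rw [one_mul]
      exact norm_le_Z (norm_nonneg _) (T_bound hc (norm_nonneg _) fun γ _ => by
          have := (k γ).le_of_opNorm_le (hk γ) y
          rwa [one_mul] at this))

lemma GG_apply {F : Type*} [NormedAddCommGroup F] [NormedSpace ℝ F] (B : Finset I)
    (k : I → (F →L[ℝ] ℝ)) (hk : ∀ γ, ‖k γ‖ ≤ 1) (y : F) (γ : I) :
    GG hc B k hk y γ = T hc (B : Set I) (fun γ => k γ y) γ := rfl

lemma GG_mem {F : Type*} [NormedAddCommGroup F] [NormedSpace ℝ F] (B : Finset I)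
    (k : I → (F →L[ℝ] ℝ)) (hk : ∀ γ, ‖k γ‖ ≤ 1) (y : F) : GG hc B k hk y ∈ XX hc :=
  Submodule.le_topologicalClosure _ (mkZ_T_mem hc B (fun γ => k γ y) ‖y‖
    (T_bound hc (norm_nonneg _) fun γ _ => by
      have := (k γ).le_of_opNorm_le (hk γ) y
      rwa [one_mul] at this))

lemma GG_norm {F : Type*} [NormedAddCommGroup F] [NormedSpace ℝ F] (B : Finset I)
    (k : I → (F →L[ℝ] ℝ)) (hk : ∀ γ, ‖k γ‖ ≤ 1) (y : F) : ‖GG hc B k hk y‖ ≤ ‖y‖ := by
  have := (GG hc B k hk).le_of_opNorm_le (LinearMap.mkContinuous_norm_le _ zero_le_one _) y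
  rwa [one_mul] at this

lemma SS_sub (c : I → I →₀ ℝ) (x y : I → ℝ) (γ : I) : SS c (x - y) γ = SS c x γ - SS c y γ := by
  simp only [SS, Pi.sub_apply, mul_sub, Finset.sum_sub_distrib]

/-- The extension property. -/
theorem extend (hr : Rich c) {F : Type*} [NormedAddCommGroup F] [NormedSpace ℝ F]
    [FiniteDimensional ℝ F] (E : Submodule ℝ F) (v : E →L[ℝ] ZZ I) (hv : ∀ y, v y ∈ XX hc)
    (hvn : ∀ y, ‖v y‖ = ‖y‖) [Nonempty I] (η : ℝ) (hη : 0 < η) (hη2 : η ≤ 1 / 2) :
    ∃ f : F →L[ℝ] ZZ I, (∀ y, f y ∈ XX hc) ∧ (∀ y, ‖f y‖ ≤ ‖y‖) ∧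
      (∀ y, (1 - 2 * η) * ‖y‖ ≤ ‖f y‖) ∧ ∀ y : E, ‖f y - v y‖ ≤ 5 * η * ‖y‖ := by
  classical
  obtain ⟨A, hA⟩ := approx hc v hv η hη
  -- coordinates and their extensions
  have hu : ∀ α : I, ‖(evalZ α).comp v‖ ≤ 1 := fun α =>
    ContinuousLinearMap.opNorm_le_bound _ zero_le_one fun y => by
      rw [one_mul, ← hvn y]
      exact le_norm_Z (v y) α
  have hext : ∀ α : I, ∃ h : F →L[ℝ] ℝ, (∀ y : E, h y = v y α) ∧ ‖h‖ ≤ 1 := by
    intro α
    obtain ⟨h, h1, h2⟩ := exists_extension_norm_eq E ((evalZ α).comp v)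
    exact ⟨h, h1, h2.le.trans (hu α)⟩
  choose h hh1 hh2 using hext
  -- the coordinates in `A` are norming
  have hnorming : ∀ y : E, (1 - η) * ‖y‖ ≤ ‖fun i : A => (evalZ (i : I)).comp v y‖ := by
    intro y
    have h1 : ‖TL hc (A : Set I) (v y)‖ ≤ ‖fun i : A => (evalZ (i : I)).comp v y‖ := by
      refine norm_le_Z (norm_nonneg _) (T_bound hc (norm_nonneg _) fun γ hγ => ?_)
      exact norm_le_pi_norm (fun i : A => (evalZ (i : I)).comp v y) ⟨γ, hγ⟩
    have h2 := hA y
    have h3 : ‖v y‖ ≤ ‖TL hc (A : Set I) (v y)‖ + ‖TL hc (A : Set I) (v y) - v y‖ := by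
      have := norm_sub_norm_le (v y) (TL hc (A : Set I) (v y))
      rw [norm_sub_rev] at this
      linarith
    rw [hvn] at h3
    linarith
  obtain ⟨t, g, hg1, hg2⟩ := exists_net F η hη
  have hθ : 0 < 1 - η := by linarith
  have hrat : ∀ z : F, ∃ r : I →₀ ℚ, r.support ⊆ A ∧ ∑ β ∈ r.support, |(r β : ℝ)| ≤ 1 ∧
      ∀ y : E, |g z y - ∑ β ∈ r.support, (r β : ℝ) * v y β| ≤ 4 * η * ‖y‖ := by
    intro z
    obtain ⟨a, ha1, ha2⟩ := rep (fun i : A => (evalZ (i : I)).comp v) (1 - η) hθ hnorming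
      ((g z).comp E.subtypeL) (ContinuousLinearMap.opNorm_le_bound _ zero_le_one fun y => by
        have := (g z).le_of_opNorm_le (hg1 z) (y : F)
        exact this)
    obtain ⟨r, hr1, hr2, hr3⟩ := rat_approx A a η hη hη2 ha1
    refine ⟨r, hr1, hr2, fun y => ?_⟩
    have h1 : g z y = ∑ i : A, a i * v y i := ha2 y
    have h2 : ∑ β ∈ r.support, (r β : ℝ) * v y β = ∑ i : A, (r i : ℝ) * v y i := by
      rw [Finset.sum_coe_sort A fun i => (r i : ℝ) * v y i]
      refine Finset.sum_subset hr1 fun i _ hi => ?_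
      rw [Finsupp.notMem_support_iff.1 hi]; simp
    rw [h1, h2, ← Finset.sum_sub_distrib]
    calc |∑ i : A, (a i * v y i - (r i : ℝ) * v y i)|
        ≤ ∑ i : A, |a i * v y i - (r i : ℝ) * v y i| := Finset.abs_sum_le_sum_abs _ _
      _ ≤ ∑ i : A, |a i - (r i : ℝ)| * ‖y‖ := by
          refine Finset.sum_le_sum fun i _ => ?_
          rw [← sub_mul, abs_mul]
          refine mul_le_mul_of_nonneg_left ?_ (abs_nonneg _)
          rw [← hvn y]
          exact le_norm_Z (v y) i
      _ = (∑ i : A, |a i - (r i : ℝ)|) * ‖y‖ := by rw [Finset.sum_mul]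
      _ ≤ 4 * η * ‖y‖ := mul_le_mul_of_nonneg_right hr3 (norm_nonneg _)
  choose r hr1 hr2 hr3 using hrat
  -- indices for the net
  let en : t → ℕ := fun z => (t.equivFin z : ℕ)
  have hen : Function.Injective en := fun a b hab => t.equivFin.injective (Fin.ext hab)
  obtain ⟨δ, hδ⟩ := A.exists_le
  obtain ⟨γ, hγm, hγδ, hγc⟩ := hr.seq (Function.extend en (fun z : t => r z) 0) (fun n => by
    by_cases hn : ∃ z : t, en z = n
    · obtain ⟨z, rfl⟩ := hn
      rw [hen.extend_apply]
      exact hr2 z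
    · rw [Function.extend_apply' _ _ _ (fun ⟨z, hz⟩ => hn ⟨z, hz⟩)]
      simp) δ
  let pt : t → I := fun z => γ (en z)
  have hpt : Function.Injective pt := fun a b hab => hen (hγm.injective hab)
  have hptA : ∀ z, pt z ∉ A := fun z hz => absurd (hδ _ hz) (not_le.2 (hγδ (en z)))
  have hptc : ∀ z : t, c (pt z) = toReal (r z) := fun z => by
    simp only [pt]
    rw [hγc, hen.extend_apply]
  -- the prescribed coordinates
  let k : I → (F →L[ℝ] ℝ) := fun γ =>
    if γ ∈ A then h γ else if hz : ∃ z : t, pt z = γ then g (Classical.choose hz : t) else 0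
  have hk : ∀ γ, ‖k γ‖ ≤ 1 := by
    intro γ
    simp only [k]
    split_ifs with h1 h2
    · exact hh2 γ
    · exact hg1 _
    · simp
  have hkA : ∀ γ ∈ A, k γ = h γ := fun γ hγ => by simp only [k, if_pos hγ]
  have hkt : ∀ z : t, k (pt z) = g z := by
    intro z
    have hz : ∃ z' : t, pt z' = pt z := ⟨z, rfl⟩
    simp only [k, if_neg (hptA z), dif_pos hz]
    have := hpt (Classical.choose_spec hz)
    rw [this]
  set B : Finset I := A ∪ Finset.univ.image pt with hB
  have hAB : (A : Set I) ⊆ (B : Set I) := by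
    rw [hB]; exact_mod_cast Finset.subset_union_left
  have hptB : ∀ z : t, pt z ∈ (B : Set I) := fun z => by
    rw [hB, Finset.mem_coe, Finset.mem_union]
    exact Or.inr (Finset.mem_image_of_mem _ (Finset.mem_univ z))
  refine ⟨GG hc B k hk, GG_mem hc B k hk, GG_norm hc B k hk, fun y => ?_, fun y => ?_⟩
  · by_cases hy : y = 0
    · rw [hy]; simp
    obtain ⟨z, hz, hzy⟩ := hg2 y hy
    refine hzy.trans ?_
    have h1 := le_norm_Z (GG hc B k hk y) (pt ⟨z, hz⟩)
    rw [GG_apply, T_mem hc (hptB _), hkt] at h1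
    exact h1
  · have h2 : ‖GG hc B k hk y - TL hc (A : Set I) (v y)‖ ≤ 4 * η * ‖y‖ := by
      have hD : ∀ γ, γ ∉ (B : Set I) →
          (((GG hc B k hk y - TL hc (A : Set I) (v y) : ZZ I)) : I → ℝ) γ =
          SS c ((GG hc B k hk y - TL hc (A : Set I) (v y) : ZZ I) : I → ℝ) γ := by
        intro γ hγ
        rw [lp.coeFn_sub, SS_sub, Pi.sub_apply]
        congr 1
        · exact T_not hc hγ
        · exact T_not hc fun hγA => hγ (hAB hγA)
      refine norm_le_Z (by positivity) fun γ => ?_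
      rw [← T_eq_self hc hD]
      refine T_bound hc (by positivity) (fun γ hγ => ?_) γ
      rw [lp.coeFn_sub, Pi.sub_apply, GG_apply, TL_apply, T_mem hc hγ]
      rw [hB, Finset.mem_coe, Finset.mem_union, Finset.mem_image] at hγ
      rcases hγ with hγ | ⟨z, -, rfl⟩
      · rw [hkA γ hγ, hh1, T_mem hc hγ, sub_self, abs_zero]
        positivity
      · rw [hkt, T_not hc (hptA z), SS, hptc, toReal_support]
        have : ∑ β ∈ (r z).support, toReal (r z) β * T hc (A : Set I) (v y) β =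
            ∑ β ∈ (r z).support, (r z β : ℝ) * v y β := by
          refine Finset.sum_congr rfl fun β hβ => ?_
          rw [toReal_apply, T_mem hc (hr1 z hβ)]
        rw [this]
        exact hr3 z y
    have h3 := hA y
    have e : GG hc B k hk y - v y = (GG hc B k hk y - TL hc (A : Set I) (v y)) +
        (TL hc (A : Set I) (v y) - v y) := by abel
    rw [e]
    refine (norm_add_le _ _).trans ?_
    linarith

/-- `XX` is a Gurarii space. -/
theorem isGurarii [Nonempty I] (hr : Rich c) : IsGurarii (XX hc) := by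
  refine ⟨?_, fun ε hε F _ _ _ E e => ?_⟩
  · have : IsClosed ((XX hc : Submodule ℝ (ZZ I)) : Set (ZZ I)) :=
      Submodule.isClosed_topologicalClosure _
    exact this.completeSpace_coe
  · set η := ε / (8 * (1 + ε)) with hη
    have hη0 : 0 < η := by positivity
    have hη1 : η * (8 * (1 + ε)) = ε := by rw [hη]; field_simp
    have hη2 : η ≤ 1 / 2 := by
      rw [hη, div_le_iff₀ (by positivity)]
      linarith
    have hηε : 5 * η ≤ ε := by nlinarith
    obtain ⟨f, hf1, hf2, hf3, hf4⟩ := extend hc hr E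
      ((XX hc).subtypeL.comp e.toContinuousLinearMap) (fun y => (e y).2)
      (fun y => e.norm_map y) η hη0 hη2
    refine ⟨f.codRestrict (XX hc) hf1, fun y => ⟨?_, ?_⟩, fun y => ?_⟩
    · have h1 : (1 + ε)⁻¹ ≤ 1 - 2 * η := by
        rw [inv_le_iff_one_le_mul₀ (by positivity)]
        nlinarith
      exact (mul_le_mul_of_nonneg_right h1 (norm_nonneg _)).trans (hf3 y)
    · have h1 : ‖y‖ ≤ (1 + ε) * ‖y‖ := by nlinarith [norm_nonneg y]
      exact (hf2 y).trans h1
    · have h1 := hf4 y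
      have h2 : 5 * η * ‖y‖ ≤ ε * ‖y‖ := mul_le_mul_of_nonneg_right hηε (norm_nonneg _)
      exact h1.trans h2

end

end Q99.GU
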